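import Mathlib
import Pool.Agent.H.MP_4aeb90_al.Main

set_option autoImplicit false

namespace Pool.Agent.Results.MP_4aeb90_al.Q1

open CategoryTheory MonoidalCategory Pool.Agent.H.MP_4aeb90_al

theorem result (N : ℕ) : ∃ (C : Type 1) (_ : Category.{0} C) (_ : Abelian C)
    (_ : Limits.HasFiniteBiproducts C) (_ : Linear ℂ C) (_ : MonoidalCategory C)
    (_ : MonoidalPreadditive C) (_ : MonoidalLinear ℂ C) (_ : RigidCategory C),
    IsFusion C ∧ ∃ X : C, Simple X ∧ (∀ Y : C, IsEmpty (X ⊗ Y ≅ 𝟙_ C)) ∧ Simple (tpow X N) :=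
  ⟨CC (N + 1), inferInstance, inferInstance, inferInstance, inferInstance, inferInstance,
    inferInstance, inferInstance, inferInstance, fusion, XC,
    haveI : Simple (XC ⊗ 𝟙_ (CC (N + 1))) := simple_pow (m := N + 1) (n := 1) (by omega)
    Simple.of_iso (ρ_ XC).symm,
    not_inv, simple_pow (Nat.le_succ N)⟩

end Pool.Agent.Results.MP_4aeb90_al.Q1
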